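import Pool.Agent.D0H74.MX.Idu1
import Pool.Agent.TH293.J3093

/-!
# Project MX, module IDU: the number of ideals of norm at most `Y` is at most `C d ^ ε Y`
-/

set_option autoImplicit false

namespace Pool.Agent.D0H74.MX

open NumberField Module NumberField.InfinitePlace
open Pool.Agent.TH55.J3092 Pool.Agent.D0H64.MX Pool.Agent.TH444.ML

/-- the class of an ideal -/
noncomputable def cl {M : Type} [Field M] [NumberField M] (I : Ideal (𝓞 M)) : ClassGroup (𝓞 M) :=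
  open Classical in
  if h : I ∈ nonZeroDivisors (Ideal (𝓞 M)) then ClassGroup.mk0 ⟨I, h⟩ else 1

theorem cl_eq {M : Type} [Field M] [NumberField M] {I : Ideal (𝓞 M)}
    (h : I ∈ nonZeroDivisors (Ideal (𝓞 M))) : cl I = ClassGroup.mk0 ⟨I, h⟩ := by
  unfold cl
  rw [dif_pos h]

theorem nzd {M : Type} [Field M] [NumberField M] {I : Ideal (𝓞 M)} (h : I ≠ ⊥) :
    I ∈ nonZeroDivisors (Ideal (𝓞 M)) := mem_nonZeroDivisors_iff_ne_zero.mpr h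

/-- `cl I = (cl J)⁻¹` iff `I J` is principal -/
theorem cl_inv {M : Type} [Field M] [NumberField M] {I J : Ideal (𝓞 M)} (hI : I ≠ ⊥)
    (hJ : J ≠ ⊥) : cl I = (cl J)⁻¹ ↔ ∃ x : 𝓞 M, x ≠ 0 ∧ I * J = Ideal.span {x} := by
  rw [cl_eq (nzd hI), cl_eq (nzd hJ), ClassGroup.mk0_eq_mk0_inv_iff]

theorem norm_pos {M : Type} [Field M] [NumberField M] {I : Ideal (𝓞 M)} (hI : I ≠ ⊥) :
    0 < (Ideal.absNorm I : ℝ) := by
  have : Ideal.absNorm I ≠ 0 := by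
    rw [Ne, Ideal.absNorm_eq_zero_iff]; exact hI
  exact_mod_cast Nat.pos_of_ne_zero this

/-- the pair `(J, z)` attached to `I` -/
theorem exists_pair (M : Type) [Field M] [NumberField M] (rep : ClassGroup (𝓞 M) → Ideal (𝓞 M))
    (hrep : ∀ c, cl (rep c) = c) (hrep0 : ∀ c, rep c ≠ ⊥) (C1 : ℝ)
    (hC1 : 2 ^ (finrank ℚ M) * Real.sqrt (dK M) < C1) (c0 : ClassGroup (𝓞 M)) (Y : ℝ)
    (I : Ideal (𝓞 M)) (hI : I ≠ ⊥) (hIY : (Ideal.absNorm I : ℝ) ≤ Y) :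
    ∃ (J : Ideal (𝓞 M)) (z : 𝓞 M), J ≠ ⊥ ∧ (Ideal.absNorm J : ℝ) ≤ C1 ∧ cl J = c0 ∧
      Ideal.span {z} = (J * rep c0⁻¹ * rep (cl I)⁻¹) * I ∧
      ∀ w : InfinitePlace M, w (z : M) ≤
        (C1 * Ideal.absNorm (rep c0⁻¹) * Ideal.absNorm (rep (cl I)⁻¹) * Y) ^
          ((1 : ℝ) / (finrank ℚ M : ℝ)) := by
  have hb0 := hrep0 (cl I)⁻¹
  have hc0 := hrep0 c0⁻¹
  have hC0 : 0 < C1 := lt_of_le_of_lt (by positivity) hC1
  obtain ⟨x, hx0, hx⟩ := (cl_inv hI hb0).mp (by rw [hrep, inv_inv])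
  have hNc := norm_pos hc0
  have hNb := norm_pos hb0
  obtain ⟨β, hβc, hβ0, hβN, hβw⟩ := balanceI M (rep c0⁻¹) hc0 (C1 * Ideal.absNorm (rep c0⁻¹))
    (mul_lt_mul_of_pos_right hC1 hNc) x hx0
  obtain ⟨J, hJ⟩ := Ideal.dvd_iff_le.mpr ((Ideal.span_singleton_le_iff_mem (rep c0⁻¹)).mpr hβc)
  have hJ0 : J ≠ ⊥ := by
    rintro rfl
    rw [Ideal.mul_bot, Ideal.span_singleton_eq_bot] at hJ
    exact hβ0 hJ
  have hNJ : (Ideal.absNorm (rep c0⁻¹) : ℝ) * Ideal.absNorm J ≤ C1 * Ideal.absNorm (rep c0⁻¹) := by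
    refine le_trans (le_of_eq ?_) hβN
    rw [hJ, map_mul]
    push_cast
    rfl
  have hclJ : cl J = c0 := by
    have h := (cl_inv hJ0 hc0).mpr ⟨β, hβ0, by rw [hJ, mul_comm]⟩
    rw [hrep, inv_inv] at h
    exact h
  refine ⟨J, β * x, hJ0, ?_, hclJ, ?_, ?_⟩
  · have : (Ideal.absNorm (rep c0⁻¹) : ℝ) * Ideal.absNorm J ≤
        Ideal.absNorm (rep c0⁻¹) * C1 := by linarith
    exact le_of_mul_le_mul_left this hNc
  · rw [← Ideal.span_singleton_mul_span_singleton, hJ, ← hx]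
    ring
  · intro w
    refine (hβw w).le.trans ?_
    apply Real.rpow_le_rpow (by positivity) _ (by positivity)
    rw [← hx, map_mul]
    push_cast
    have : C1 * (Ideal.absNorm (rep c0⁻¹) : ℝ) * (Ideal.absNorm I * Ideal.absNorm (rep (cl I)⁻¹)) =
      (C1 * (Ideal.absNorm (rep c0⁻¹) : ℝ) * Ideal.absNorm (rep (cl I)⁻¹)) * Ideal.absNorm I := by
      ring
    rw [this]
    exact mul_le_mul_of_nonneg_left hIY (by positivity)

/-- the count for large `Y` -/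
theorem large (M : Type) [Field M] [NumberField M] (C ε CB A : ℝ) (hC : 0 < C) (hε : 0 < ε)
    (hCB : 0 < CB)
    (hide : ∀ Y : ℝ, 1 ≤ Y →
      {I : Ideal (𝓞 M) | I ≠ ⊥ ∧ (Ideal.absNorm I : ℝ) ≤ Y}.Finite ∧
      (Set.ncard {I : Ideal (𝓞 M) | I ≠ ⊥ ∧ (Ideal.absNorm I : ℝ) ≤ Y} : ℝ) ≤ C * Y ^ (1 + ε))
    (hbox : ∀ 𝔞 : Ideal (𝓞 M), 𝔞 ≠ ⊥ → ∀ B : ℝ, 0 < B →
      dK M ^ A * Ideal.absNorm 𝔞 ≤ B ^ (finrank ℚ M) →
      {z : 𝓞 M | z ∈ 𝔞 ∧ ∀ w : InfinitePlace M, w (z : M) ≤ B}.Finite ∧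
      (Set.ncard {z : 𝓞 M | z ∈ 𝔞 ∧ ∀ w : InfinitePlace M, w (z : M) ≤ B} : ℝ) *
        (Real.sqrt (dK M) * Ideal.absNorm 𝔞) ≤ CB * B ^ (finrank ℚ M))
    (Y : ℝ) (hY1 : 1 ≤ Y) (hYA : dK M ^ A ≤ Y) :
    (Set.ncard {I : Ideal (𝓞 M) | I ≠ ⊥ ∧ (Ideal.absNorm I : ℝ) ≤ Y} : ℝ) ≤
      CB * 2 ^ (finrank ℚ M + 1) * (2 * C / (ε * Real.log 2)) *
        ((2 ^ (finrank ℚ M + 2)) ^ ε * (2 ^ (finrank ℚ M + 2)) ^ ε) * dK M ^ ε * Y := by
  classical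
  have hD1 : 0 < finrank ℚ M := finrank_pos
  have hDR : (0 : ℝ) < (finrank ℚ M : ℝ) := by exact_mod_cast hD1
  have hd1 : 1 ≤ dK M := by
    unfold dK
    have h := discr_ne_zero M
    have : (1 : ℤ) ≤ |discr M| := Int.one_le_abs h
    exact_mod_cast this
  have hd0 : 0 < dK M := by linarith
  obtain ⟨s, hs⟩ : ∃ s, s = Real.sqrt (dK M) := ⟨_, rfl⟩
  have hs1 : 1 ≤ s := by rw [hs]; exact Real.one_le_sqrt.mpr hd1
  obtain ⟨C1, hC1d⟩ : ∃ C1 : ℝ, C1 = 2 ^ (finrank ℚ M + 1) * s := ⟨_, rfl⟩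
  have hC1 : 2 ^ (finrank ℚ M) * Real.sqrt (dK M) < C1 := by
    rw [hC1d, ← hs, pow_succ]
    have : (0 : ℝ) < 2 ^ (finrank ℚ M) * s := by positivity
    linarith
  have hC11 : 1 ≤ C1 := by
    rw [hC1d]
    have : (1 : ℝ) ≤ 2 ^ (finrank ℚ M + 1) := one_le_pow₀ (by norm_num)
    nlinarith
  have hC10 : 0 < C1 := by linarith
  obtain ⟨rep, hrep', hrep0, -, -⟩ := Pool.Agent.TH293.J3093.exists_rep M
  have hrep : ∀ c, cl (rep c) = c := by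
    intro c
    obtain ⟨h, hh⟩ := hrep' c
    rw [cl_eq h, hh]
  -- the small ideals
  obtain ⟨hTf, -⟩ := hide C1 hC11
  obtain ⟨T, hTd⟩ : ∃ T, T = hTf.toFinset := ⟨_, rfl⟩
  have hT : ∀ J, J ∈ T ↔ J ≠ ⊥ ∧ (Ideal.absNorm J : ℝ) ≤ C1 := by
    intro J
    rw [hTd, Set.Finite.mem_toFinset]
    rfl
  have hW := weight M C ε hC hε hide C1 hC11 T (fun J hJ => (hT J).mp hJ)
  -- the class with the smallest weight
  obtain ⟨c0, hc0⟩ := Finite.exists_min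
    (fun c : ClassGroup (𝓞 M) => ∑ J ∈ T with cl J = c, 1 / (Ideal.absNorm J : ℝ))
  have hWc : (Fintype.card (ClassGroup (𝓞 M)) : ℝ) *
      ∑ J ∈ T with cl J = c0, 1 / (Ideal.absNorm J : ℝ) ≤ ∑ J ∈ T, 1 / (Ideal.absNorm J : ℝ) := by
    rw [← Finset.sum_fiberwise T (fun J => cl J)]
    calc (Fintype.card (ClassGroup (𝓞 M)) : ℝ) *
          ∑ J ∈ T with cl J = c0, 1 / (Ideal.absNorm J : ℝ)
        = ∑ c : ClassGroup (𝓞 M), ∑ J ∈ T with cl J = c0, 1 / (Ideal.absNorm J : ℝ) := by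
          rw [Finset.sum_const, nsmul_eq_mul, Finset.card_univ]
      _ ≤ _ := Finset.sum_le_sum fun c _ => hc0 c
  -- the pairs
  obtain ⟨hSf, -⟩ := hide Y hY1
  obtain ⟨S, hSd⟩ : ∃ S, S = hSf.toFinset := ⟨_, rfl⟩
  have hS : ∀ I, I ∈ S ↔ I ≠ ⊥ ∧ (Ideal.absNorm I : ℝ) ≤ Y := by
    intro I
    rw [hSd, Set.Finite.mem_toFinset]
    rfl
  have hch : ∀ I : Ideal (𝓞 M), ∃ q : Ideal (𝓞 M) × 𝓞 M, I ∈ S → q.1 ≠ ⊥ ∧
      (Ideal.absNorm q.1 : ℝ) ≤ C1 ∧ cl q.1 = c0 ∧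
      Ideal.span {q.2} = (q.1 * rep c0⁻¹ * rep (cl I)⁻¹) * I ∧
      ∀ w : InfinitePlace M, w (q.2 : M) ≤
        (C1 * Ideal.absNorm (rep c0⁻¹) * Ideal.absNorm (rep (cl I)⁻¹) * Y) ^
          ((1 : ℝ) / (finrank ℚ M : ℝ)) := by
    intro I
    by_cases hI : I ∈ S
    · obtain ⟨J, z, h⟩ := exists_pair M rep hrep hrep0 C1 hC1 c0 Y I
        ((hS I).mp hI).1 ((hS I).mp hI).2
      exact ⟨(J, z), fun _ => h⟩
    · exact ⟨(⊥, 0), fun h => absurd h hI⟩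
  choose q hq using hch
  have hncard : (Set.ncard {I : Ideal (𝓞 M) | I ≠ ⊥ ∧ (Ideal.absNorm I : ℝ) ≤ Y}) = S.card := by
    rw [hSd, Set.ncard_eq_toFinset_card _ hSf]
  rw [hncard]
  obtain ⟨P, hP⟩ : ∃ P : Finset (ClassGroup (𝓞 M) × Ideal (𝓞 M)),
    P = Finset.univ ×ˢ (T.filter fun J => cl J = c0) := ⟨_, rfl⟩
  have hmaps : ∀ I ∈ S, (cl I, (q I).1) ∈ P := by
    intro I hI
    obtain ⟨h1, h2, h3, -, -⟩ := hq I hI
    rw [hP, Finset.mem_product, Finset.mem_filter]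
    exact ⟨Finset.mem_univ _, (hT _).mpr ⟨h1, h2⟩, h3⟩
  have hfib : ∀ p ∈ P, ((S.filter fun I => (cl I, (q I).1) = p).card : ℝ) ≤
      CB * 2 ^ (finrank ℚ M + 1) * Y * (1 / (Ideal.absNorm p.2 : ℝ)) := by
    rintro ⟨k, J⟩ hp
    rw [hP, Finset.mem_product, Finset.mem_filter] at hp
    obtain ⟨-, hJT, hJc⟩ := hp
    obtain ⟨hJ0, hJC1⟩ := (hT J).mp hJT
    simp only at hJ0 hJC1 ⊢
    have hNJ := norm_pos hJ0
    have hNc := norm_pos (hrep0 c0⁻¹)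
    have hNb := norm_pos (hrep0 k⁻¹)
    obtain ⟨nc, hnc⟩ : ∃ nc : ℝ, nc = Ideal.absNorm (rep c0⁻¹) := ⟨_, rfl⟩
    obtain ⟨nb, hnb⟩ : ∃ nb : ℝ, nb = Ideal.absNorm (rep k⁻¹) := ⟨_, rfl⟩
    obtain ⟨nJ, hnJ⟩ : ∃ nJ : ℝ, nJ = Ideal.absNorm J := ⟨_, rfl⟩
    rw [← hnc] at hNc
    rw [← hnb] at hNb
    rw [← hnJ] at hNJ hJC1 ⊢
    obtain ⟨B, hB⟩ : ∃ B : ℝ, B = (C1 * nc * nb * Y) ^ ((1 : ℝ) / (finrank ℚ M : ℝ)) := ⟨_, rfl⟩
    have hX0 : 0 < C1 * nc * nb * Y := by positivity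
    have hB0 : 0 < B := by rw [hB]; exact Real.rpow_pos_of_pos hX0 _
    have hBD : B ^ (finrank ℚ M) = C1 * nc * nb * Y := by
      rw [hB, ← Real.rpow_natCast, ← Real.rpow_mul hX0.le, one_div, inv_mul_cancel₀ hDR.ne',
        Real.rpow_one]
    obtain ⟨𝔞, h𝔞⟩ : ∃ 𝔞, 𝔞 = J * rep c0⁻¹ * rep k⁻¹ := ⟨_, rfl⟩
    have h𝔞0 : 𝔞 ≠ ⊥ := by
      rw [h𝔞]
      exact mul_ne_zero (mul_ne_zero hJ0 (hrep0 _)) (hrep0 _)
    have hN𝔞 : (Ideal.absNorm 𝔞 : ℝ) = nJ * nc * nb := by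
      rw [h𝔞, map_mul, map_mul, hnJ, hnc, hnb]
      push_cast
      rfl
    have hcond : dK M ^ A * Ideal.absNorm 𝔞 ≤ B ^ (finrank ℚ M) := by
      rw [hBD, hN𝔞]
      calc dK M ^ A * (nJ * nc * nb) ≤ Y * (C1 * nc * nb) := by
            gcongr
        _ = _ := by ring
    obtain ⟨hZf, hZc⟩ := hbox 𝔞 h𝔞0 B hB0 hcond
    have hcard : (S.filter fun I => (cl I, (q I).1) = (k, J)).card ≤
        Set.ncard {z : 𝓞 M | z ∈ 𝔞 ∧ ∀ w : InfinitePlace M, w (z : M) ≤ B} := by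
      rw [← Set.ncard_coe_finset]
      apply Set.ncard_le_ncard_of_injOn (fun I => (q I).2) _ _ hZf
      · intro I hI
        rw [Finset.mem_coe, Finset.mem_filter] at hI
        obtain ⟨hIS, hIk⟩ := hI
        obtain ⟨h1, h2, h3, h4, h5⟩ := hq I hIS
        have hk : cl I = k := congrArg Prod.fst hIk
        have hJq : (q I).1 = J := congrArg Prod.snd hIk
        rw [hk, hJq, ← h𝔞] at h4
        rw [hk, ← hnc, ← hnb, ← hB] at h5
        have h6 : Ideal.span {(q I).2} ≤ 𝔞 := by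
          rw [h4]
          exact Ideal.dvd_iff_le.mp (dvd_mul_right 𝔞 I)
        exact ⟨(Ideal.span_singleton_le_iff_mem 𝔞).mp h6, h5⟩
      · intro I hI I' hI' hII
        rw [Finset.mem_coe, Finset.mem_filter] at hI hI'
        obtain ⟨hIS, hIk⟩ := hI
        obtain ⟨hIS', hIk'⟩ := hI'
        obtain ⟨-, -, -, h4, -⟩ := hq I hIS
        obtain ⟨-, -, -, h4', -⟩ := hq I' hIS'
        have hk : cl I = k := congrArg Prod.fst hIk
        have hJq : (q I).1 = J := congrArg Prod.snd hIk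
        have hk' : cl I' = k := congrArg Prod.fst hIk'
        have hJq' : (q I').1 = J := congrArg Prod.snd hIk'
        rw [hk, hJq, ← h𝔞] at h4
        rw [hk', hJq', ← h𝔞] at h4'
        simp only at hII
        rw [hII, h4'] at h4
        exact (mul_left_cancel₀ (show 𝔞 ≠ 0 from h𝔞0) h4).symm
    have hcardR : ((S.filter fun I => (cl I, (q I).1) = (k, J)).card : ℝ) ≤
        (Set.ncard {z : 𝓞 M | z ∈ 𝔞 ∧ ∀ w : InfinitePlace M, w (z : M) ≤ B} : ℝ) := by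
      exact_mod_cast hcard
    refine hcardR.trans ?_
    rw [← hs, hN𝔞, hBD, hC1d] at hZc
    have hpos : 0 < s * (nJ * nc * nb) := by positivity
    refine le_of_mul_le_mul_right ?_ hpos
    refine hZc.trans (le_of_eq ?_)
    field_simp
  have hcardS : S.card = ∑ p ∈ P, (S.filter fun I => (cl I, (q I).1) = p).card :=
    Finset.card_eq_sum_card_fiberwise hmaps
  have hC1e : (2 * C1) ^ ε * (2 * C1) ^ ε =
      ((2 ^ (finrank ℚ M + 2)) ^ ε * (2 ^ (finrank ℚ M + 2)) ^ ε) * dK M ^ ε := by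
    have h1 : 2 * C1 = 2 ^ (finrank ℚ M + 2) * s := by
      rw [hC1d, pow_succ (2 : ℝ) (finrank ℚ M + 1)]
      ring
    have h2 : dK M ^ ε = s ^ ε * s ^ ε := by
      rw [← Real.mul_rpow (by linarith) (by linarith), hs, Real.mul_self_sqrt hd0.le]
    rw [h1, h2, Real.mul_rpow (by positivity) (by linarith)]
    ring
  have hlog2 : 0 < Real.log 2 := Real.log_pos (by norm_num)
  calc (S.card : ℝ) = ∑ p ∈ P, ((S.filter fun I => (cl I, (q I).1) = p).card : ℝ) := by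
        rw [hcardS]
        push_cast
        rfl
    _ ≤ ∑ p ∈ P, CB * 2 ^ (finrank ℚ M + 1) * Y * (1 / (Ideal.absNorm p.2 : ℝ)) :=
        Finset.sum_le_sum hfib
    _ = CB * 2 ^ (finrank ℚ M + 1) * Y * ((Fintype.card (ClassGroup (𝓞 M)) : ℝ) *
          ∑ J ∈ T with cl J = c0, 1 / (Ideal.absNorm J : ℝ)) := by
        rw [hP, ← Finset.mul_sum, Finset.sum_product]
        simp only
        rw [Finset.sum_const, nsmul_eq_mul, Finset.card_univ]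
    _ ≤ CB * 2 ^ (finrank ℚ M + 1) * Y * ((2 * C / (ε * Real.log 2)) *
          ((2 * C1) ^ ε * (2 * C1) ^ ε)) := by
        apply mul_le_mul_of_nonneg_left (hWc.trans hW) (by positivity)
    _ = _ := by
        rw [hC1e]
        ring

theorem t_IDU : S_IDE → S_BOX → S_IDU := by
  intro hIDE hBOX D ε hε
  obtain ⟨CB, A, hCB, hA, hbox⟩ := hBOX D
  obtain ⟨C, hC, hide⟩ := hIDE D ε hε
  obtain ⟨C', hC', hide'⟩ := hIDE D (ε / A) (by positivity)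
  have hlog2 : 0 < Real.log 2 := Real.log_pos (by norm_num)
  obtain ⟨C2, hC2⟩ : ∃ C2 : ℝ, C2 = CB * 2 ^ (D + 1) * (2 * C / (ε * Real.log 2)) *
        ((2 ^ (D + 2)) ^ ε * (2 ^ (D + 2)) ^ ε) := ⟨_, rfl⟩
  have hC20 : 0 < C2 := by rw [hC2]; positivity
  refine ⟨C' + C2, by positivity, ?_⟩
  intro M _ _ hM Y hY
  have hd1 : 1 ≤ dK M := by
    unfold dK
    have h := discr_ne_zero M
    have : (1 : ℤ) ≤ |discr M| := Int.one_le_abs h
    exact_mod_cast this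
  have hd0 : 0 < dK M := by linarith
  have hdY : 0 < dK M ^ ε * Y := mul_pos (Real.rpow_pos_of_pos hd0 _) (by linarith)
  rcases le_total (dK M ^ A) Y with h | h
  · have h1 := large M C ε CB A hC hε hCB (hide M hM)
      (by rw [hM]; exact hbox M hM) Y hY h
    rw [hM, ← hC2] at h1
    refine h1.trans ?_
    have : 0 < C' * (dK M ^ ε * Y) := by positivity
    linarith
  · have h1 := (hide' M hM Y hY).2
    refine h1.trans ?_
    have h2 : Y ^ (1 + ε / A) ≤ dK M ^ ε * Y := by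
      rw [Real.rpow_add (by linarith), Real.rpow_one]
      have h3 : Y ^ (ε / A) ≤ (dK M ^ A) ^ (ε / A) :=
        Real.rpow_le_rpow (by linarith) h (by positivity)
      rw [← Real.rpow_mul hd0.le, mul_div_cancel₀ ε hA.ne'] at h3
      nlinarith
    have h4 := mul_le_mul_of_nonneg_left h2 hC'.le
    have : 0 < C2 * (dK M ^ ε * Y) := by positivity
    linarith

end Pool.Agent.D0H74.MX
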