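import Pool.Agent.TH55.J3092
import Pool.Agent.D0H64.MX.Stm2

/-!
# Project MX, module IDU, first part: Minkowski's theorem for ideals, the weight of the small ideals
-/

set_option autoImplicit false

namespace Pool.Agent.D0H74.MX

open NumberField Module NumberField.InfinitePlace NumberField.mixedEmbedding
open Pool.Agent.TH55.J3092
open scoped NNReal ENNReal

/-- Minkowski's theorem for the boxes `w a < f w` and the lattice `𝔠` -/
theorem minkI (M : Type) [Field M] [NumberField M] (𝔠 : Ideal (𝓞 M)) (h𝔠 : 𝔠 ≠ ⊥)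
    (f : InfinitePlace M → ℝ≥0)
    (hf : 2 ^ (finrank ℚ M) * Real.sqrt ((|discr M| : ℤ) : ℝ) * (Ideal.absNorm 𝔠 : ℝ) <
      ∏ w, (f w : ℝ) ^ (mult w)) :
    ∃ a : 𝓞 M, a ∈ 𝔠 ∧ a ≠ 0 ∧ ∀ w : InfinitePlace M, w a < f w := by
  classical
  have hz : 𝔠 ∈ nonZeroDivisors (Ideal (𝓞 M)) := mem_nonZeroDivisors_iff_ne_zero.mpr h𝔠
  have h1 : minkowskiBound M (FractionalIdeal.mk0 M ⟨𝔠, hz⟩) ≤
      ((2 ^ (finrank ℚ M) * NNReal.sqrt ‖discr M‖₊ * (Ideal.absNorm 𝔠 : ℝ≥0) : ℝ≥0) : ℝ≥0∞) := by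
    rw [minkowskiBound, volume_fundamentalDomain_fractionalIdealLatticeBasis,
      volume_fundamentalDomain_latticeBasis, mixedEmbedding.finrank]
    rw [FractionalIdeal.coe_mk0, FractionalIdeal.coeIdeal_absNorm]
    rw [Rat.cast_natCast, ENNReal.ofReal_natCast]
    push_cast
    calc (Ideal.absNorm 𝔠 : ℝ≥0∞) * ((2 : ℝ≥0∞)⁻¹ ^ nrComplexPlaces M *
          (NNReal.sqrt ‖discr M‖₊ : ℝ≥0∞)) * 2 ^ finrank ℚ M
        ≤ (Ideal.absNorm 𝔠 : ℝ≥0∞) * (1 * (NNReal.sqrt ‖discr M‖₊ : ℝ≥0∞)) *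
          2 ^ finrank ℚ M := by
          gcongr
          apply pow_le_one₀ (by positivity)
          exact ENNReal.inv_le_one.mpr (by norm_num)
      _ = _ := by ring
  have h2 : ((2 ^ (finrank ℚ M) * NNReal.sqrt ‖discr M‖₊ * (Ideal.absNorm 𝔠 : ℝ≥0) : ℝ≥0) :
      ℝ≥0∞) < ((∏ w, (f w) ^ (mult w) : ℝ≥0) : ℝ≥0∞) := by
    rw [ENNReal.coe_lt_coe, ← NNReal.coe_lt_coe]
    push_cast
    convert hf using 3
    rw [Int.norm_eq_abs]
    push_cast
    rfl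
  have h3 : (1 : ℝ≥0∞) ≤ (convexBodyLTFactor M : ℝ≥0∞) := by
    exact_mod_cast one_le_convexBodyLTFactor M
  have h4 : minkowskiBound M (FractionalIdeal.mk0 M ⟨𝔠, hz⟩) <
      MeasureTheory.volume (convexBodyLT M f) := by
    refine lt_of_le_of_lt h1 ?_
    rw [convexBodyLT_volume]
    refine h2.trans_le ?_
    calc ((∏ w, (f w) ^ (mult w) : ℝ≥0) : ℝ≥0∞)
        = 1 * ((∏ w, (f w) ^ (mult w) : ℝ≥0) : ℝ≥0∞) := (one_mul _).symm
      _ ≤ _ := by gcongr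
  obtain ⟨a, ha, ha0, haw⟩ := exists_ne_zero_mem_ideal_lt M (FractionalIdeal.mk0 M ⟨𝔠, hz⟩) h4
  rw [FractionalIdeal.coe_mk0, FractionalIdeal.mem_coeIdeal] at ha
  obtain ⟨x, hx, rfl⟩ := ha
  exact ⟨x, hx, fun h => ha0 (by rw [h, map_zero]), haw⟩

/-- every nonzero integer has a multiple by an element of `𝔠`, of small norm, which is small at all
the places -/
theorem balanceI (M : Type) [Field M] [NumberField M] (𝔠 : Ideal (𝓞 M)) (h𝔠 : 𝔠 ≠ ⊥) (C1 : ℝ)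
    (hC1 : 2 ^ (finrank ℚ M) * Real.sqrt ((|discr M| : ℤ) : ℝ) * (Ideal.absNorm 𝔠 : ℝ) < C1)
    (x : 𝓞 M) (hx : x ≠ 0) :
    ∃ β : 𝓞 M, β ∈ 𝔠 ∧ β ≠ 0 ∧ (Ideal.absNorm (Ideal.span {β}) : ℝ) ≤ C1 ∧
      ∀ w : InfinitePlace M, w ((β * x : 𝓞 M) : M) <
        (C1 * (Ideal.absNorm (Ideal.span {x}) : ℝ)) ^ ((1 : ℝ) / (finrank ℚ M : ℝ)) := by
  have hC0 : 0 < C1 := lt_of_le_of_lt (by positivity) hC1
  have hN : 0 < (Ideal.absNorm (Ideal.span {x}) : ℝ) := absNorm_pos' M hx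
  set N : ℝ := (Ideal.absNorm (Ideal.span {x}) : ℝ) with hNdef
  set D := finrank ℚ M with hD
  have hDpos : (0 : ℝ) < D := by
    have : 0 < finrank ℚ M := finrank_pos
    exact_mod_cast this
  set B : ℝ := (C1 * N) ^ ((1 : ℝ) / (D : ℝ)) with hB
  have hBpos : 0 < B := Real.rpow_pos_of_pos (mul_pos hC0 hN) _
  have hwpos : ∀ w : InfinitePlace M, 0 < w (x : M) := by
    intro w
    rw [InfinitePlace.pos_iff]
    exact fun h => hx (by exact_mod_cast h)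
  set f : InfinitePlace M → ℝ≥0 := fun w => ⟨B / w (x : M), (div_pos hBpos (hwpos w)).le⟩ with hf
  have hprod : ∏ w, (f w : ℝ) ^ (mult w) = C1 := by
    have e1 : ∀ w, (f w : ℝ) ^ (mult w) = B ^ (mult w) / w (x : M) ^ (mult w) := by
      intro w
      show (B / w (x : M)) ^ (mult w) = _
      rw [div_pow]
    rw [Finset.prod_congr rfl fun w _ => e1 w, Finset.prod_div_distrib, prod_places,
      Finset.prod_pow_eq_pow_sum, sum_mult_eq, ← hD, hB, ← Real.rpow_natCast,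
      ← Real.rpow_mul (mul_pos hC0 hN).le, one_div, inv_mul_cancel₀ hDpos.ne', Real.rpow_one]
    rw [← hNdef]
    field_simp
  obtain ⟨β, hβc, hβ0, hβ⟩ := minkI M 𝔠 h𝔠 f (by rw [hprod]; exact hC1)
  refine ⟨β, hβc, hβ0, ?_, ?_⟩
  · rw [← prod_places, ← hprod]
    apply Finset.prod_le_prod
    · intro w _
      exact pow_nonneg (apply_nonneg _ _) _
    · intro w _
      exact pow_le_pow_left₀ (apply_nonneg _ _) (hβ w).le _
  · intro w
    have h := hβ w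
    have h2 : w ((β : M)) < B / w (x : M) := h
    rw [lt_div_iff₀ (hwpos w)] at h2
    have h3 : w ((β * x : 𝓞 M) : M) = w (β : M) * w (x : M) := by
      rw [← map_mul]; congr 1
    rw [h3]
    exact h2

/-- the sum of the `1 / N J` over the ideals of norm at most `X` -/
theorem weight (M : Type) [Field M] [NumberField M] (C ε : ℝ) (hC : 0 < C) (hε : 0 < ε)
    (hide : ∀ Y : ℝ, 1 ≤ Y →
      {I : Ideal (𝓞 M) | I ≠ ⊥ ∧ (Ideal.absNorm I : ℝ) ≤ Y}.Finite ∧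
      (Set.ncard {I : Ideal (𝓞 M) | I ≠ ⊥ ∧ (Ideal.absNorm I : ℝ) ≤ Y} : ℝ) ≤ C * Y ^ (1 + ε))
    (X : ℝ) (hX : 1 ≤ X) (T : Finset (Ideal (𝓞 M)))
    (hT : ∀ J ∈ T, J ≠ ⊥ ∧ (Ideal.absNorm J : ℝ) ≤ X) :
    ∑ J ∈ T, 1 / (Ideal.absNorm J : ℝ) ≤
      (2 * C / (ε * Real.log 2)) * ((2 * X) ^ ε * (2 * X) ^ ε) := by
  classical
  have hlog2 : 0 < Real.log 2 := Real.log_pos (by norm_num)
  set L := Nat.log 2 ⌊X⌋₊ with hL
  have hX0 : ⌊X⌋₊ ≠ 0 := by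
    have : 1 ≤ ⌊X⌋₊ := Nat.le_floor (by simpa using hX)
    omega
  have hnJ : ∀ J ∈ T, Ideal.absNorm J ≠ 0 := by
    intro J hJ
    rw [Ne, Ideal.absNorm_eq_zero_iff]
    exact (hT J hJ).1
  have hmaps : ∀ J ∈ T, Nat.log 2 (Ideal.absNorm J) ∈ Finset.range (L + 1) := by
    intro J hJ
    rw [Finset.mem_range]
    have h1 : Ideal.absNorm J ≤ ⌊X⌋₊ := Nat.le_floor (hT J hJ).2
    have h2 := Nat.log_mono_right (b := 2) h1
    omega
  have hterm : ∀ J ∈ T, 1 / (Ideal.absNorm J : ℝ) ≤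
      1 / (2 : ℝ) ^ (Nat.log 2 (Ideal.absNorm J)) := by
    intro J hJ
    apply one_div_le_one_div_of_le (by positivity)
    exact_mod_cast Nat.pow_log_le_self 2 (hnJ J hJ)
  have h2X : ((2 : ℝ) ^ (L + 1)) ≤ 2 * X := by
    have h1 : ((2 ^ L : ℕ) : ℝ) ≤ (⌊X⌋₊ : ℝ) := by exact_mod_cast Nat.pow_log_le_self 2 hX0
    have h2 := Nat.floor_le (show 0 ≤ X by linarith)
    push_cast at h1
    rw [pow_succ]
    linarith
  have hfib : ∀ j ∈ Finset.range (L + 1),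
      ∑ J ∈ T with Nat.log 2 (Ideal.absNorm J) = j, 1 / (2 : ℝ) ^ (Nat.log 2 (Ideal.absNorm J)) ≤
        2 * C * (2 * X) ^ ε := by
    intro j hj
    rw [Finset.mem_range] at hj
    have e1 : ∑ J ∈ T with Nat.log 2 (Ideal.absNorm J) = j,
        1 / (2 : ℝ) ^ (Nat.log 2 (Ideal.absNorm J)) =
        ∑ J ∈ T with Nat.log 2 (Ideal.absNorm J) = j, 1 / (2 : ℝ) ^ j := by
      apply Finset.sum_congr rfl
      intro J hJ
      rw [(Finset.mem_filter.mp hJ).2]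
    rw [e1, Finset.sum_const, nsmul_eq_mul]
    have hY1 : (1 : ℝ) ≤ (2 : ℝ) ^ (j + 1) := one_le_pow₀ (by norm_num)
    obtain ⟨hf, hc⟩ := hide ((2 : ℝ) ^ (j + 1)) hY1
    have hcard : ((T.filter (fun J => Nat.log 2 (Ideal.absNorm J) = j)).card : ℝ) ≤
        C * ((2 : ℝ) ^ (j + 1)) ^ (1 + ε) := by
      refine le_trans ?_ hc
      rw [← Set.ncard_coe_finset]
      have hsub : ((T.filter (fun J => Nat.log 2 (Ideal.absNorm J) = j) : Finset _) :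
          Set (Ideal (𝓞 M))) ⊆ {I : Ideal (𝓞 M) | I ≠ ⊥ ∧ (Ideal.absNorm I : ℝ) ≤ 2 ^ (j + 1)} := by
        intro J hJ
        rw [Finset.mem_coe, Finset.mem_filter] at hJ
        refine ⟨(hT J hJ.1).1, ?_⟩
        have h3 := Nat.lt_pow_succ_log_self (b := 2) (by norm_num) (Ideal.absNorm J)
        rw [hJ.2] at h3
        exact_mod_cast h3.le
      exact_mod_cast Set.ncard_le_ncard hsub hf
    have hpos : (0 : ℝ) < 2 ^ (j + 1) := by positivity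
    have e2 : ((2 : ℝ) ^ (j + 1)) ^ (1 + ε) = (2 : ℝ) ^ (j + 1) * ((2 : ℝ) ^ (j + 1)) ^ ε := by
      rw [Real.rpow_add hpos, Real.rpow_one]
    have h4 : ((2 : ℝ) ^ (j + 1)) ^ ε ≤ (2 * X) ^ ε := by
      apply Real.rpow_le_rpow hpos.le _ hε.le
      refine le_trans ?_ h2X
      exact pow_le_pow_right₀ (by norm_num) (by omega)
    calc ((T.filter (fun J => Nat.log 2 (Ideal.absNorm J) = j)).card : ℝ) * (1 / 2 ^ j)
        ≤ (C * ((2 : ℝ) ^ (j + 1)) ^ (1 + ε)) * (1 / 2 ^ j) :=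
          mul_le_mul_of_nonneg_right hcard (by positivity)
      _ = 2 * C * ((2 : ℝ) ^ (j + 1)) ^ ε := by
          rw [e2, pow_succ (2 : ℝ) j]
          field_simp
      _ ≤ _ := mul_le_mul_of_nonneg_left h4 (by positivity)
  have hL1 : ((L : ℝ) + 1) ≤ (2 * X) ^ ε / (ε * Real.log 2) := by
    rw [le_div_iff₀ (by positivity)]
    have h1 : ((2 : ℝ) ^ (L + 1)) ^ ε = Real.exp (((L : ℝ) + 1) * (ε * Real.log 2)) := by
      rw [Real.rpow_def_of_pos (by positivity), Real.log_pow]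
      push_cast
      ring_nf
    have h2 : ((2 : ℝ) ^ (L + 1)) ^ ε ≤ (2 * X) ^ ε :=
      Real.rpow_le_rpow (by positivity) h2X hε.le
    have h3 := Real.add_one_le_exp (((L : ℝ) + 1) * (ε * Real.log 2))
    rw [h1] at h2
    linarith
  calc ∑ J ∈ T, 1 / (Ideal.absNorm J : ℝ)
      ≤ ∑ J ∈ T, 1 / (2 : ℝ) ^ (Nat.log 2 (Ideal.absNorm J)) := Finset.sum_le_sum hterm
    _ = ∑ j ∈ Finset.range (L + 1), ∑ J ∈ T with Nat.log 2 (Ideal.absNorm J) = j,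
          1 / (2 : ℝ) ^ (Nat.log 2 (Ideal.absNorm J)) :=
        (Finset.sum_fiberwise_of_maps_to hmaps _).symm
    _ ≤ ∑ j ∈ Finset.range (L + 1), 2 * C * (2 * X) ^ ε := Finset.sum_le_sum hfib
    _ = ((L : ℝ) + 1) * (2 * C * (2 * X) ^ ε) := by
        rw [Finset.sum_const, Finset.card_range, nsmul_eq_mul]
        push_cast
        ring
    _ ≤ ((2 * X) ^ ε / (ε * Real.log 2)) * (2 * C * (2 * X) ^ ε) := by
        apply mul_le_mul_of_nonneg_right hL1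
        have : 0 < 2 * X := by linarith
        positivity
    _ = _ := by ring

end Pool.Agent.D0H74.MX
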